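import Pool.Agent.Helper31.BC.Stmts

set_option autoImplicit false

/-! Module EVB: branching, by binary search. -/

namespace Pool.Agent.Helper31.BC

open Pool.Agent.Helper38.MR (Edge Graph clq mpt Gate Simple out trv)

open Classical in
/-- binary search -/
noncomputable def evb_bs (q : ℕ → Prop) : ℕ → ℕ → ℕ
  | 0, lo => lo
  | t + 1, lo => if q (lo + 2 ^ t - 1) then evb_bs q t lo else evb_bs q t (lo + 2 ^ t)

lemma evb_bs_range (q : ℕ → Prop) (t : ℕ) : ∀ lo, lo ≤ evb_bs q t lo ∧ evb_bs q t lo < lo + 2 ^ t := by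
  induction t with
  | zero => intro lo; simp [evb_bs]
  | succ t ih =>
    intro lo
    have h2 : 2 ^ (t + 1) = 2 ^ t + 2 ^ t := by ring
    have h3 : 0 < 2 ^ t := by positivity
    unfold evb_bs
    split_ifs with h
    · have := ih lo
      omega
    · have := ih (lo + 2 ^ t)
      omega

lemma evb_bs_anti (q q' : ℕ → Prop) (h : ∀ j, q j → q' j) (t : ℕ) :
    ∀ lo, evb_bs q' t lo ≤ evb_bs q t lo := by
  induction t with
  | zero => intro lo; simp [evb_bs]
  | succ t ih =>
    intro lo
    unfold evb_bs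
    split_ifs with h1 h2 h2
    · exact ih lo
    · have h3 := evb_bs_range q' t lo
      have h4 := evb_bs_range q t (lo + 2 ^ t)
      omega
    · exact absurd (h _ h2) h1
    · exact ih (lo + 2 ^ t)

lemma evb_bs_lt (q : ℕ → Prop) (hq : ∀ i j, i ≤ j → q i → q j) (t : ℕ) :
    ∀ lo j, lo ≤ j → j < evb_bs q t lo → ¬ q j := by
  induction t with
  | zero =>
    intro lo j h1 h2
    simp only [evb_bs] at h2
    omega
  | succ t ih =>
    intro lo j h1 h2
    unfold evb_bs at h2
    split_ifs at h2 with h
    · exact ih lo j h1 h2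
    · by_cases h3 : lo + 2 ^ t ≤ j
      · exact ih _ j h3 h2
      · intro hj
        exact h (hq j _ (by omega) hj)

lemma evb_bs_top (q : ℕ → Prop) (t : ℕ) :
    ∀ lo, q (evb_bs q t lo) ∨ evb_bs q t lo = lo + 2 ^ t - 1 := by
  induction t with
  | zero => intro lo; right; simp [evb_bs]
  | succ t ih =>
    intro lo
    have h2 : 2 ^ (t + 1) = 2 ^ t + 2 ^ t := by ring
    unfold evb_bs
    split_ifs with h
    · rcases ih lo with h3 | h3
      · exact Or.inl h3
      · left
        rw [h3]
        exact h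
    · rcases ih (lo + 2 ^ t) with h3 | h3
      · exact Or.inl h3
      · right
        rw [h3]
        omega

lemma evb_vals {A : Type} [Finite A] [Nonempty A] (F : A → ℤ) :
    ∃ v : ℕ → ℤ, Monotone v ∧ ∀ α, ∃ i, i < Nat.card A ∧ v i = F α := by
  classical
  have hft : Fintype A := Fintype.ofFinite A
  obtain ⟨α₀⟩ := ‹Nonempty A›
  have hne : (Finset.univ.image F).Nonempty := ⟨F α₀, Finset.mem_image_of_mem F (Finset.mem_univ _)⟩
  have hc : 0 < (Finset.univ.image F).card := Finset.card_pos.mpr hne
  have hcard : (Finset.univ.image F).card ≤ Nat.card A := by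
    rw [Nat.card_eq_fintype_card]
    exact Finset.card_image_le
  refine ⟨fun j => (Finset.univ.image F).orderEmbOfFin rfl
    ⟨min j ((Finset.univ.image F).card - 1), by omega⟩, ?_, ?_⟩
  · intro i j hij
    apply (OrderEmbedding.monotone _)
    show min i _ ≤ min j _
    omega
  · intro α
    have h1 : F α ∈ Set.range ((Finset.univ.image F).orderEmbOfFin rfl) := by
      rw [Finset.range_orderEmbOfFin]
      exact Finset.mem_coe.mpr (Finset.mem_image_of_mem F (Finset.mem_univ _))
    obtain ⟨i, hi⟩ := h1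
    refine ⟨i, by omega, ?_⟩
    rw [← hi]
    have h2 : min (i : ℕ) ((Finset.univ.image F).card - 1) = i := by omega
    exact congrArg _ (Fin.ext h2)

lemma evb_val_neg {n : ℕ} (a : Pair n → ℤ) (c : ℝ) (x : Pair n → ℤ) :
    val ⟨fun e => -(a e : ℝ), c⟩ x = -((∑ e, a e * x e : ℤ) : ℝ) := by
  unfold val
  push_cast
  rw [← Finset.sum_neg_distrib]
  refine Finset.sum_congr rfl fun e _ => ?_
  ring

lemma evb_val_pos {n : ℕ} (a : Pair n → ℤ) (c : ℝ) (x : Pair n → ℤ) :
    val ⟨fun e => (a e : ℝ), c⟩ x = ((∑ e, a e * x e : ℤ) : ℝ) := by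
  unfold val
  push_cast
  rfl

open Classical in
/-- the thresholds -/
noncomputable def evb_c (v : ℕ → ℤ) (BIG : ℝ) (j : ℕ) : ℝ :=
  if j = 0 then BIG else -((v (j - 1) : ℤ) : ℝ)

lemma evb_c_anti (v : ℕ → ℤ) (hv : Monotone v) (BIG : ℝ) (hB : ∀ j, -((v j : ℤ) : ℝ) ≤ BIG)
    {i j : ℕ} (hij : i ≤ j) : evb_c v BIG j ≤ evb_c v BIG i := by
  unfold evb_c
  split_ifs with h1 h2 h2
  · exact le_rfl
  · omega
  · exact hB _
  · have h3 : v (i - 1) ≤ v (j - 1) := hv (by omega)
    have h4 : ((v (i - 1) : ℤ) : ℝ) ≤ ((v (j - 1) : ℤ) : ℝ) := by exact_mod_cast h3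
    linarith

/-- the rounds of the binary search: `t` rounds remain -/
lemma evb_rounds (hPAIR : ST_PAIR) (hEXTL : ST_EXTL) {n m : ℕ} {A B : Type}
    {f : A → Pair n → ℤ} {g : B → Pair n → ℤ} {Γ : Set (Ineq n)} {l' : Ineq n} {N : ℕ}
    {E1 : (Ineq n → ℝ) → ℝ} (h1 : Evl m f g (insert l' Γ) N E1) (v : ℕ → ℝ)
    (upd : (Ineq n → ℝ) → ℝ → Ineq n → ℝ) (hupd : ∀ r x, upd r x l' = x)
    (hupd' : ∀ r x l, l ≠ l' → upd r x l = r l)
    (𝓕 : Set (Fn m)) (H : Fn m) (r : Graph m → Ineq n → ℝ)
    (hr : ∀ l ∈ Γ, ∃ H', Coarser H' H ∧ pair H' (fun p => r p l) ∈ 𝓕) (κ : ℕ) :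
    ∀ t k : ℕ, t + k = κ → ∀ (𝓕₁ : Set (Fn m)) (M : ℕ), Ext 𝓕 M 𝓕₁ → ∀ (H₁ : Fn m) (lo : Graph m → ℕ),
      H₁ ∈ 𝓕₁ → (∀ p, 2 ^ t ∣ lo p) →
      (∀ p q, H₁ p ≤ H₁ q ↔ (H p < H q ∨ (H p = H q ∧ lo q ≤ lo p))) →
      ∃ (𝓖 : Set (Fn m)) (H₂ : Fn m), Ext 𝓕 (M + t * (N + 1)) 𝓖 ∧ H₂ ∈ 𝓖 ∧
        (∀ p q, H₂ p ≤ H₂ q ↔ (H p < H q ∨ (H p = H q ∧
          evb_bs (fun j => E1 (upd (r q) (v j)) = 1) t (lo q) ≤
          evb_bs (fun j => E1 (upd (r p) (v j)) = 1) t (lo p)))) := by
  classical
  intro t
  induction t with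
  | zero =>
    intro k _ 𝓕₁ M hM H₁ lo hH₁ _ hlo
    refine ⟨𝓕₁, H₁, by simpa using hM, hH₁, fun p q => ?_⟩
    simp only [evb_bs]
    exact hlo p q
  | succ t ih =>
    intro k hk 𝓕₁ M hM H₁ lo hH₁ hdvd hlo
    obtain ⟨hsub, hcomp⟩ := hEXTL m
    have hlt : ∀ p q, H₁ p < H₁ q ↔ (H p < H q ∨ (H p = H q ∧ lo q < lo p)) := by
      intro p q
      rw [← not_le, hlo q p]
      constructor
      · intro h
        push Not at h
        rcases lt_or_eq_of_le h.1 with h2 | h2
        · exact Or.inl h2
        · exact Or.inr ⟨h2, h.2 h2.symm⟩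
      · rintro (h | ⟨h, h'⟩) (h2 | ⟨h2, h2'⟩)
        · exact absurd h (lt_asymm h2)
        · exact absurd h2 h.ne'
        · exact absurd h h2.ne'
        · omega
    have heq : ∀ p q, H₁ p = H₁ q ↔ (H p = H q ∧ lo p = lo q) := by
      intro p q
      constructor
      · intro h
        have ha := (hlo p q).mp h.le
        have hb := (hlo q p).mp h.ge
        rcases ha with ha | ⟨ha, ha'⟩ <;> rcases hb with hb | ⟨hb, hb'⟩
        · exact absurd ha (lt_asymm hb)
        · exact absurd hb ha.ne'
        · exact absurd ha hb.ne'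
        · exact ⟨ha, le_antisymm hb' ha'⟩
      · rintro ⟨h, h'⟩
        exact le_antisymm ((hlo p q).mpr (Or.inr ⟨h, h'.ge⟩)) ((hlo q p).mpr (Or.inr ⟨h.symm, h'.le⟩))
    have hcoarse : ∀ p q, H₁ p ≤ H₁ q → H p ≤ H q := by
      intro p q h
      rcases (hlo p q).mp h with h2 | ⟨h2, _⟩
      · exact h2.le
      · exact h2.le
    -- the middle
    set mid : Graph m → ℕ := fun p => lo p + 2 ^ t - 1 with hmid
    set x : Fn m := fun p => v (mid p) with hx
    have hgen : Gen H₁ H₁ (pair H₁ x) := by
      intro p q h _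
      rw [(hPAIR m H₁ x p q).1]
      rcases lt_or_eq_of_le h with h2 | h2
      · exact Or.inl h2
      · refine Or.inr ⟨h2, le_of_eq ?_⟩
        have h3 := ((heq p q).mp h2).2
        show v (lo p + 2 ^ t - 1) = v (lo q + 2 ^ t - 1)
        rw [h3]
    have hext1 : Ext 𝓕 (M + 1) (insert (pair H₁ x) 𝓕₁) := Ext.step hM hH₁ hH₁ hgen
    obtain ⟨𝓕₂, hext2, hmem2⟩ := h1.prog (insert (pair H₁ x) 𝓕₁) H₁ (fun p => upd (r p) (x p))
      (Set.mem_insert_of_mem _ hH₁) (by
        intro l hl
        by_cases hll : l = l'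
        · refine ⟨H₁, fun p q h => h, ?_⟩
          have : (fun p => upd (r p) (x p) l) = x := by
            funext p
            rw [hll, hupd]
          rw [this]
          exact Set.mem_insert _ _
        · rcases Set.mem_insert_iff.mp hl with h | h
          · exact absurd h hll
          · obtain ⟨H', hH', hmem⟩ := hr l h
            refine ⟨H', fun p q hpq => hH' p q (hcoarse p q hpq), ?_⟩
            have : (fun p => upd (r p) (x p) l) = fun p => r p l := by
              funext p
              rw [hupd' _ _ _ hll]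
            rw [this]
            exact Set.mem_insert_of_mem _ (hsub _ _ _ hM hmem))
    set y : Fn m := fun p => E1 (upd (r p) (x p)) with hy
    have hy01 : ∀ p, y p = 0 ∨ y p = 1 := fun p => h1.bit _
    have hext3 : Ext 𝓕 (M + 1 + N) 𝓕₂ := hcomp _ _ _ _ _ hext1 hext2
    set lo' : Graph m → ℕ := fun p => if y p = 1 then lo p else lo p + 2 ^ t with hlo'
    obtain ⟨𝓖, H₂, hext4, hmem4, hfin⟩ := ih (k + 1) (by omega) 𝓕₂ (M + 1 + N) hext3
      (pair H₁ y) lo' hmem2 (by
        intro p
        have h2 : 2 ^ t ∣ lo p := (pow_dvd_pow 2 (Nat.le_succ t)).trans (hdvd p)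
        show 2 ^ t ∣ (if y p = 1 then lo p else lo p + 2 ^ t)
        split_ifs
        · exact h2
        · exact dvd_add h2 (dvd_refl _)) (by
        intro p q
        rw [(hPAIR m H₁ y p q).1, hlt, heq]
        have hP : 0 < 2 ^ t := by positivity
        have h2p : 2 ^ (t + 1) = 2 ^ t + 2 ^ t := by ring
        obtain ⟨u, hu⟩ := hdvd p
        obtain ⟨w, hw⟩ := hdvd q
        have hstep : lo q < lo p → lo q + 2 ^ (t + 1) ≤ lo p := by
          intro h
          rw [hu, hw] at h ⊢
          have h3 : w < u := Nat.lt_of_mul_lt_mul_left h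
          calc 2 ^ (t + 1) * w + 2 ^ (t + 1) = 2 ^ (t + 1) * (w + 1) := by ring
            _ ≤ 2 ^ (t + 1) * u := Nat.mul_le_mul_left _ h3
        have hstep' : lo p < lo q → lo p + 2 ^ (t + 1) ≤ lo q := by
          intro h
          rw [hu, hw] at h ⊢
          have h3 : u < w := Nat.lt_of_mul_lt_mul_left h
          calc 2 ^ (t + 1) * u + 2 ^ (t + 1) = 2 ^ (t + 1) * (u + 1) := by ring
            _ ≤ 2 ^ (t + 1) * w := Nat.mul_le_mul_left _ h3
        have hbp : lo p ≤ lo' p ∧ lo' p ≤ lo p + 2 ^ t := by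
          show lo p ≤ (if y p = 1 then lo p else lo p + 2 ^ t) ∧
            (if y p = 1 then lo p else lo p + 2 ^ t) ≤ lo p + 2 ^ t
          split_ifs <;> omega
        have hbq : lo q ≤ lo' q ∧ lo' q ≤ lo q + 2 ^ t := by
          show lo q ≤ (if y q = 1 then lo q else lo q + 2 ^ t) ∧
            (if y q = 1 then lo q else lo q + 2 ^ t) ≤ lo q + 2 ^ t
          split_ifs <;> omega
        constructor
        · rintro ((h | ⟨h, h'⟩) | ⟨⟨h, h'⟩, h''⟩)
          · exact Or.inl h
          · refine Or.inr ⟨h, ?_⟩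
            have := hstep h'
            omega
          · refine Or.inr ⟨h, ?_⟩
            show (if y q = 1 then lo q else lo q + 2 ^ t) ≤ (if y p = 1 then lo p else lo p + 2 ^ t)
            rcases hy01 p with hp | hp <;> rcases hy01 q with hq | hq
            · rw [if_neg (by rw [hq]; exact zero_ne_one), if_neg (by rw [hp]; exact zero_ne_one)]
              omega
            · rw [if_pos hq, if_neg (by rw [hp]; exact zero_ne_one)]
              omega
            · rw [hp, hq] at h''
              exact absurd h'' (not_le.mpr zero_lt_one)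
            · rw [if_pos hq, if_pos hp]
              omega
        · rintro (h | ⟨h, h'⟩)
          · exact Or.inl (Or.inl h)
          · rcases lt_trichotomy (lo q) (lo p) with h3 | h3 | h3
            · exact Or.inl (Or.inr ⟨h, h3⟩)
            · refine Or.inr ⟨⟨h, h3.symm⟩, ?_⟩
              rcases hy01 p with hp | hp <;> rcases hy01 q with hq | hq
              · rw [hp, hq]
              · rw [hp, hq]
                exact zero_le_one
              · exfalso
                have h5 : lo' q = lo q + 2 ^ t := if_neg (by rw [hq]; exact zero_ne_one)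
                have h6 : lo' p = lo p := if_pos hp
                omega
              · rw [hp, hq]
            · exfalso
              have := hstep' h3
              omega)
    refine ⟨𝓖, H₂, ?_, hmem4, ?_⟩
    · have : M + 1 + N + t * (N + 1) = M + (t + 1) * (N + 1) := by ring
      rw [← this]
      exact hext4
    · intro p q
      rw [hfin p q]
      have hbs : ∀ p, evb_bs (fun j => E1 (upd (r p) (v j)) = 1) (t + 1) (lo p) =
          evb_bs (fun j => E1 (upd (r p) (v j)) = 1) t (lo' p) := by
        intro p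
        conv_lhs => unfold evb_bs
        show (if y p = 1 then _ else _) = evb_bs _ t (if y p = 1 then lo p else lo p + 2 ^ t)
        split_ifs <;> rfl
      rw [hbs p, hbs q]

theorem st_EVB (hPAIR : ST_PAIR) (hEXTL : ST_EXTL) : ST_EVB := by
  classical
  rintro n m A B _ _ _ f g κ hκ Γ a b N N' ⟨E1, h1⟩ ⟨E2, h2⟩
  obtain ⟨v, hv, hvA⟩ := evb_vals (fun α => -(∑ e, a e * f α e))
  obtain ⟨C, hC⟩ := (Set.finite_range
    (fun β : B => ((b : ℝ) + 1 - ((∑ e, a e * g β e : ℤ) : ℝ)))).bddAbove
  set BIG : ℝ := max (-((v 0 : ℤ) : ℝ)) C with hBIG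
  have hBv : ∀ j, -((v j : ℤ) : ℝ) ≤ BIG := by
    intro j
    have h3 : v 0 ≤ v j := hv (Nat.zero_le j)
    have h4 : ((v 0 : ℤ) : ℝ) ≤ ((v j : ℤ) : ℝ) := by exact_mod_cast h3
    exact le_trans (by linarith) (le_max_left _ _)
  have hBG : ∀ β : B, (b : ℝ) + 1 - ((∑ e, a e * g β e : ℤ) : ℝ) ≤ BIG :=
    fun β => le_trans (hC (Set.mem_range_self β)) (le_max_right _ _)
  set l' : Ineq n := ⟨fun e => -(a e : ℝ), -(b : ℝ)⟩ with hl'
  set l'' : Ineq n := ⟨fun e => (a e : ℝ), (b : ℝ) + 1⟩ with hl''
  have hval1 : ∀ x : Pair n → ℤ, val l' x = -((∑ e, a e * x e : ℤ) : ℝ) :=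
    fun x => evb_val_neg a _ x
  have hval2 : ∀ x : Pair n → ℤ, val l'' x = ((∑ e, a e * x e : ℤ) : ℝ) :=
    fun x => evb_val_pos a _ x
  set qq : (Ineq n → ℝ) → ℕ → Prop :=
    fun r j => E1 (Function.update r l' ((v j : ℤ) : ℝ)) = 1 with hqq
  set rr : (Ineq n → ℝ) → ℝ := fun r => evb_c v BIG (evb_bs (qq r) κ 0) with hrr
  have hqm : ∀ r i j, i ≤ j → qq r i → qq r j := by
    intro r i j hij hi
    have h3 : E1 (Function.update r l' ((v i : ℤ) : ℝ)) ≤
        E1 (Function.update r l' ((v j : ℤ) : ℝ)) := by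
      apply h1.mono
      intro l _
      by_cases hl : l = l'
      · rw [hl, Function.update_self, Function.update_self]
        exact_mod_cast hv hij
      · rw [Function.update_of_ne hl, Function.update_of_ne hl]
    have hi' : E1 (Function.update r l' ((v i : ℤ) : ℝ)) = 1 := hi
    rcases h1.bit (Function.update r l' ((v j : ℤ) : ℝ)) with h4 | h4
    · rw [hi', h4] at h3
      exact absurd h3 (not_le.mpr zero_lt_one)
    · exact h4
  have hqr : ∀ r r' : Ineq n → ℝ, (∀ l ∈ Γ, r l ≤ r' l) → ∀ j, qq r j → qq r' j := by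
    intro r r' hrr' j hj
    have h3 : E1 (Function.update r l' ((v j : ℤ) : ℝ)) ≤
        E1 (Function.update r' l' ((v j : ℤ) : ℝ)) := by
      apply h1.mono
      intro l hl0
      by_cases hl : l = l'
      · rw [hl, Function.update_self, Function.update_self]
      · rw [Function.update_of_ne hl, Function.update_of_ne hl]
        rcases Set.mem_insert_iff.mp hl0 with h | h
        · exact absurd h hl
        · exact hrr' l h
    have hj' : E1 (Function.update r l' ((v j : ℤ) : ℝ)) = 1 := hj
    rcases h1.bit (Function.update r' l' ((v j : ℤ) : ℝ)) with h4 | h4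
    · rw [hj', h4] at h3
      exact absurd h3 (not_le.mpr zero_lt_one)
    · exact h4
  refine ⟨fun r => E2 (Function.update r l'' (rr r)), ?_, ?_, ?_, ?_, ?_⟩
  · intro r
    exact h2.bit _
  · intro r r' hrr'
    apply h2.mono
    intro l hl0
    by_cases hl : l = l''
    · rw [hl, Function.update_self, Function.update_self]
      exact evb_c_anti v hv BIG hBv (evb_bs_anti (qq r) (qq r') (hqr r r' hrr') κ 0)
    · rw [Function.update_of_ne hl, Function.update_of_ne hl]
      rcases Set.mem_insert_iff.mp hl0 with h | h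
      · exact absurd h hl
      · exact hrr' l h
  · intro α r hr
    apply h2.left α
    intro l hl0
    by_cases hl : l = l''
    · rw [hl, Function.update_self, hval2]
      obtain ⟨i, hi, hvi⟩ := hvA α
      have hq0 : ∀ j, j ≤ i → ¬ qq r j := by
        intro j hj hqj
        have h3 : E1 (Function.update r l' ((v j : ℤ) : ℝ)) = 0 := by
          apply h1.left α
          intro l hl0
          by_cases hl : l = l'
          · rw [hl, Function.update_self, hval1]
            have h4 : v j ≤ v i := hv hj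
            rw [hvi] at h4
            exact_mod_cast h4
          · rw [Function.update_of_ne hl]
            rcases Set.mem_insert_iff.mp hl0 with h | h
            · exact absurd h hl
            · exact hr l h
        have h4 : E1 (Function.update r l' ((v j : ℤ) : ℝ)) = 1 := hqj
        rw [h3] at h4
        exact zero_ne_one h4
      have hj0 : i + 1 ≤ evb_bs (qq r) κ 0 := by
        by_contra hcon
        push Not at hcon
        rcases evb_bs_top (qq r) κ 0 with h3 | h3
        · exact hq0 _ (by omega) h3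
        · omega
      show evb_c v BIG (evb_bs (qq r) κ 0) ≤ _
      refine (evb_c_anti v hv BIG hBv hj0).trans ?_
      unfold evb_c
      rw [if_neg (Nat.succ_ne_zero i), Nat.add_sub_cancel, hvi]
      push_cast
      linarith
    · rw [Function.update_of_ne hl]
      rcases Set.mem_insert_iff.mp hl0 with h | h
      · exact absurd h hl
      · exact hr l h
  · intro β r hr
    apply h2.right β
    intro l hl0
    by_cases hl : l = l''
    · rw [hl, Function.update_self, hval2]
      show (b : ℝ) + 1 - _ ≤ evb_c v BIG (evb_bs (qq r) κ 0)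
      unfold evb_c
      split_ifs with hj0
      · exact hBG β
      · have hnq : ¬ qq r (evb_bs (qq r) κ 0 - 1) :=
          evb_bs_lt (qq r) (hqm r) κ 0 _ (Nat.zero_le _) (by omega)
        have hlt : v (evb_bs (qq r) κ 0 - 1) < (∑ e, a e * g β e) - b := by
          by_contra hcon
          push Not at hcon
          apply hnq
          show E1 (Function.update r l' _) = 1
          apply h1.right β
          intro l hl0
          by_cases hl : l = l'
          · rw [hl, Function.update_self, hval1]
            have h5 : (((∑ e, a e * g β e) - b : ℤ) : ℝ) ≤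
                ((v (evb_bs (qq r) κ 0 - 1) : ℤ) : ℝ) := by exact_mod_cast hcon
            rw [Int.cast_sub] at h5
            show -(b : ℝ) - _ ≤ _
            linarith
          · rw [Function.update_of_ne hl]
            rcases Set.mem_insert_iff.mp hl0 with h | h
            · exact absurd h hl
            · exact hr l h
        have h5 : v (evb_bs (qq r) κ 0 - 1) + 1 ≤ (∑ e, a e * g β e) - b := hlt
        have h6 : ((v (evb_bs (qq r) κ 0 - 1) : ℤ) : ℝ) + 1 ≤
            ((∑ e, a e * g β e : ℤ) : ℝ) - (b : ℝ) := by exact_mod_cast h5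
        linarith
    · rw [Function.update_of_ne hl]
      rcases Set.mem_insert_iff.mp hl0 with h | h
      · exact absurd h hl
      · exact hr l h
  · intro 𝓕 H r hH hr
    obtain ⟨hsub, hcomp⟩ := hEXTL m
    obtain ⟨𝓖, H₂, hext, hmem, hfin⟩ := evb_rounds hPAIR hEXTL h1 (fun j => ((v j : ℤ) : ℝ))
      (fun r x => Function.update r l' x) (fun r x => Function.update_self _ _ _)
      (fun r x l hl => Function.update_of_ne hl _ _) 𝓕 H r hr κ κ 0 (by omega) 𝓕 0 Ext.refl H
      (fun _ => 0) hH (fun p => dvd_zero _) (by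
        intro p q
        constructor
        · intro h
          rcases lt_or_eq_of_le h with h3 | h3
          · exact Or.inl h3
          · exact Or.inr ⟨h3, le_rfl⟩
        · rintro (h | ⟨h, _⟩)
          · exact h.le
          · exact h.le)
    have hgen : Gen H₂ H₂ (pair H (fun p => rr (r p))) := by
      intro p q h _
      rw [(hPAIR m H _ p q).1]
      rcases (hfin p q).mp h with h3 | ⟨h3, h4⟩
      · exact Or.inl h3
      · exact Or.inr ⟨h3, evb_c_anti v hv BIG hBv h4⟩
    have hext1 : Ext 𝓕 (0 + κ * (N + 1) + 1) (insert (pair H (fun p => rr (r p))) 𝓖) :=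
      Ext.step hext hmem hmem hgen
    obtain ⟨𝓖', hext2, hmem2⟩ := h2.prog (insert (pair H (fun p => rr (r p))) 𝓖) H
      (fun p => Function.update (r p) l'' (rr (r p)))
      (Set.mem_insert_of_mem _ (hsub _ _ _ hext hH)) (by
        intro l hl
        by_cases hll : l = l''
        · refine ⟨H, fun p q h => h, ?_⟩
          have : (fun p => Function.update (r p) l'' (rr (r p)) l) = fun p => rr (r p) := by
            funext p
            rw [hll, Function.update_self]
          rw [this]
          exact Set.mem_insert _ _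
        · rcases Set.mem_insert_iff.mp hl with h | h
          · exact absurd h hll
          · obtain ⟨H', hH', hmem'⟩ := hr l h
            refine ⟨H', hH', ?_⟩
            have : (fun p => Function.update (r p) l'' (rr (r p)) l) = fun p => r p l := by
              funext p
              rw [Function.update_of_ne hll]
            rw [this]
            exact Set.mem_insert_of_mem _ (hsub _ _ _ hext hmem'))
    refine ⟨𝓖', ?_, hmem2⟩
    have h3 := hcomp _ _ _ _ _ hext1 hext2
    rw [zero_add] at h3
    exact h3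

end Pool.Agent.Helper31.BC
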